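import Mathlib

set_option autoImplicit false
open Finset

namespace Pool.Agent.Results.MP_362e7f_co.SupersaturationFails

/-- A hypergraph pair: a finite vertex set and two finite multisets of subsets of it
(repeated edges are allowed). -/
@[ext]
structure HPair (α : Type) [DecidableEq α] where
  V : Finset α
  H : Multiset (Finset α)
  F : Multiset (Finset α)
  hH : ∀ e ∈ H, e ⊆ V
  hF : ∀ e ∈ F, e ⊆ V

variable {α : Type} [DecidableEq α]

/-- The number (with multiplicity) of edges of `E` inside `S`. -/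
def eIn (E : Multiset (Finset α)) (S : Finset α) : ℕ := (E.filter (· ⊆ S)).card

/-- The pair induced on a subset of the vertex set. -/
def HPair.restrict (P : HPair α) (S : Finset α) : HPair α where
  V := S
  H := P.H.filter (· ⊆ S)
  F := P.F.filter (· ⊆ S)
  hH := fun _ he => (Multiset.mem_filter.1 he).2
  hF := fun _ he => (Multiset.mem_filter.1 he).2

/-- `(h, f, f')`-bounded pairs. -/
def Bounded (h f f' : ℕ) (P : HPair α) : Prop :=
  (∀ e ∈ P.H, e.card ≤ h) ∧ ∀ e ∈ P.F, f ≤ e.card ∧ e.card ≤ f'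

/-- A hereditary family of pairs. -/
def Hereditary (Fm : Set (HPair α)) : Prop :=
  ∀ P ∈ Fm, ∀ S ⊆ P.V, P.restrict S ∈ Fm

/-- `ex(n, Fm) ≤ C n ^ β` for all `n ≥ 1`. -/
def ExBound (Fm : Set (HPair α)) (β : ℝ) : Prop :=
  ∃ C : ℝ, ∀ P ∈ Fm, P.V.Nonempty → ∀ I ⊆ P.V, eIn P.F I = 0 →
    (eIn P.H I : ℝ) ≤ C * (P.V.card : ℝ) ^ β

/-- The hypotheses (*). -/
def Star (Fm : Set (HPair α)) (h f f' : ℕ) (β : ℝ) : Prop :=
  0 < h ∧ 0 < f ∧ f ≤ f' ∧ β < h ∧ (f : ℝ) < h - β ∧
  (∀ P ∈ Fm, Bounded h f f' P) ∧ Hereditary Fm ∧ ExBound Fm β ∧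
  ∀ P ∈ Fm, ∀ e ∈ P.F, ∀ g ∈ P.H, ¬ e ⊆ g

/-- Supersaturation with exponent `γ` (for the pairs on at least one vertex). -/
def Supersat (Fm : Set (HPair α)) (β γ : ℝ) : Prop :=
  ∃ k₀ c : ℝ, 0 < c ∧ ∀ P ∈ Fm, P.V.Nonempty → ∀ k : ℝ, k₀ ≤ k → 0 ≤ k →
    k * (P.V.card : ℝ) ^ β ≤ (P.H.card : ℝ) → c * k ^ γ ≤ (P.F.card : ℝ)

section construction

variable (s t β : ℕ)

/-- vertices: `s` special ones, `t` cliques, and free vertices -/
abbrev Vx (s t : ℕ) := Fin s ⊕ (Fin t × ℕ) ⊕ ℕ

def spec : Finset (Vx s t) := univ.map ⟨Sum.inl, Sum.inl_injective⟩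

def cl (i : Fin t) (a : ℕ) : Vx s t := Sum.inr (Sum.inl (i, a))

def fr (b : ℕ) : Vx s t := Sum.inr (Sum.inr b)

def VV (q N : ℕ) : Finset (Vx s t) :=
  spec s t ∪ ((univ ×ˢ range q).image (fun p : Fin t × ℕ => cl s t p.1 p.2)) ∪ (range N).image (fr s t)

def hEdge (φ : Fin t → ℕ) (S : Finset ℕ) : Finset (Vx s t) :=
  spec s t ∪ (univ.image (fun i => cl s t i (φ i))) ∪ S.image (fr s t)

def fEdge (i : Fin t) (a b : ℕ) : Finset (Vx s t) := spec s t ∪ {cl s t i a, cl s t i b}

def hIdx (q N : ℕ) : Finset ((Fin t → ℕ) × Finset ℕ) :=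
  (Fintype.piFinset (fun _ : Fin t => range q)) ×ˢ (powersetCard β (range N))

def fIdx (q : ℕ) : Finset (Fin t × (ℕ × ℕ)) :=
  univ ×ˢ ((range q ×ˢ range q).filter (fun p => p.1 < p.2))

theorem hEdge_sub {q N : ℕ} {p : (Fin t → ℕ) × Finset ℕ} (hp : p ∈ hIdx t β q N) :
    hEdge s t p.1 p.2 ⊆ VV s t q N := by
  simp only [hIdx, mem_product, Fintype.mem_piFinset, mem_range, mem_powersetCard] at hp
  unfold hEdge VV
  apply union_subset_union
  · apply union_subset_union (subset_refl _)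
    intro x hx
    rw [mem_image] at hx ⊢
    obtain ⟨i, _, rfl⟩ := hx
    exact ⟨(i, p.1 i), by simp [hp.1 i], rfl⟩
  · exact image_subset_image hp.2.1

theorem fEdge_sub {q N : ℕ} {p : Fin t × (ℕ × ℕ)} (hp : p ∈ fIdx t q) :
    fEdge s t p.1 p.2.1 p.2.2 ⊆ VV s t q N := by
  simp only [fIdx, mem_product, mem_filter, mem_range, mem_univ, true_and] at hp
  unfold fEdge VV
  refine subset_trans ?_ subset_union_left
  apply union_subset_union (subset_refl _)
  intro x hx
  rw [mem_image]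
  rw [mem_insert, mem_singleton] at hx
  rcases hx with rfl | rfl
  · exact ⟨(p.1, p.2.1), by simp [hp.1.1], rfl⟩
  · exact ⟨(p.1, p.2.2), by simp [hp.1.2], rfl⟩

/-- the pair -/
def PP (q N : ℕ) : HPair (Vx s t) where
  V := VV s t q N
  H := (hIdx t β q N).val.map (fun p => hEdge s t p.1 p.2)
  F := (fIdx t q).val.map (fun p => fEdge s t p.1 p.2.1 p.2.2)
  hH := by
    intro e he
    rw [Multiset.mem_map] at he
    obtain ⟨p, hp, rfl⟩ := he
    exact hEdge_sub s t β hp
  hF := by
    intro e he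
    rw [Multiset.mem_map] at he
    obtain ⟨p, hp, rfl⟩ := he
    exact fEdge_sub s t hp

/-- the family -/
def Fam : Set (HPair (Vx s t)) :=
  {P | ∃ q N : ℕ, ∃ S ⊆ VV s t q N, P = (PP s t β q N).restrict S}

theorem card_spec : (spec s t).card = s := by simp [spec]

theorem card_hEdge (φ : Fin t → ℕ) (S : Finset ℕ) : (hEdge s t φ S).card ≤ s + t + S.card := by
  unfold hEdge
  refine le_trans (card_union_le _ _) ?_
  refine add_le_add (le_trans (card_union_le _ _) (add_le_add (card_spec s t).le ?_)) card_image_le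
  exact le_trans card_image_le (by simp)

theorem card_fEdge (i : Fin t) {a b : ℕ} (hab : a ≠ b) : (fEdge s t i a b).card = s + 2 := by
  unfold fEdge
  rw [card_union_of_disjoint, card_spec, card_pair]
  · intro h
    apply hab
    simpa [cl] using h
  · rw [disjoint_left]
    intro x hx hx'
    simp only [spec, mem_map, mem_univ, true_and, Function.Embedding.coeFn_mk] at hx
    obtain ⟨y, rfl⟩ := hx
    simp [cl] at hx'

theorem cl_mem_hEdge {φ : Fin t → ℕ} {S : Finset ℕ} {i : Fin t} {a : ℕ} :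
    cl s t i a ∈ hEdge s t φ S ↔ a = φ i := by
  unfold hEdge cl fr spec
  simp [eq_comm]

theorem fr_mem_hEdge {φ : Fin t → ℕ} {S : Finset ℕ} {b : ℕ} :
    fr s t b ∈ hEdge s t φ S ↔ b ∈ S := by
  unfold hEdge cl fr spec
  simp

theorem not_sub {φ : Fin t → ℕ} {S : Finset ℕ} {i : Fin t} {a b : ℕ} (hab : a ≠ b) :
    ¬ fEdge s t i a b ⊆ hEdge s t φ S := by
  intro h
  have h1 : cl s t i a ∈ hEdge s t φ S := h (by simp [fEdge])
  have h2 : cl s t i b ∈ hEdge s t φ S := h (by simp [fEdge])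
  rw [cl_mem_hEdge] at h1 h2
  exact hab (h1.trans h2.symm)

theorem filter_restrict {E : Multiset (Finset α)} {S I : Finset α} (h : I ⊆ S) :
    (E.filter (· ⊆ S)).filter (· ⊆ I) = E.filter (· ⊆ I) := by
  rw [Multiset.filter_filter]
  refine Multiset.filter_congr (fun e _ => ?_)
  constructor
  · exact fun h => h.1
  · exact fun h' => ⟨h', h'.trans h⟩

/-- independent sets span few edges -/
theorem indep_bound {q N : ℕ} {I : Finset (Vx s t)} (hI : eIn (PP s t β q N).F I = 0) :
    eIn (PP s t β q N).H I ≤ I.card ^ β := by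
  classical
  have h1 : eIn (PP s t β q N).H I = ((hIdx t β q N).filter (fun p => hEdge s t p.1 p.2 ⊆ I)).card := by
    unfold eIn PP
    simp only [Multiset.filter_map, Multiset.card_map]
    rfl
  rw [h1]
  -- uniqueness of φ
  have huniq : ∀ p ∈ (hIdx t β q N).filter (fun p => hEdge s t p.1 p.2 ⊆ I),
      ∀ p' ∈ (hIdx t β q N).filter (fun p => hEdge s t p.1 p.2 ⊆ I), p.1 = p'.1 := by
    intro p hp p' hp'
    rw [mem_filter] at hp hp'
    by_contra hne
    obtain ⟨i, hi⟩ := Function.ne_iff.1 hne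
    have hq : ∀ p ∈ hIdx t β q N, p.1 i < q := by
      intro p hp
      simp only [hIdx, mem_product, Fintype.mem_piFinset, mem_range] at hp
      exact hp.1 i
    -- the F-edge
    have hmem : ∀ a b : ℕ, a < b → b < q → ¬ fEdge s t i a b ⊆ I := by
      intro a b hab hbq hsub
      unfold eIn at hI
      rw [Multiset.card_eq_zero, Multiset.filter_eq_nil] at hI
      refine hI (fEdge s t i a b) ?_ hsub
      unfold PP
      simp only [Multiset.mem_map]
      refine ⟨(i, (a, b)), ?_, rfl⟩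
      simp only [fIdx, mem_val, mem_product, mem_univ, true_and, mem_filter, mem_range]
      exact ⟨⟨by omega, hbq⟩, hab⟩
    have hsub : ∀ p : (Fin t → ℕ) × Finset ℕ, hEdge s t p.1 p.2 ⊆ I → spec s t ⊆ I ∧ cl s t i (p.1 i) ∈ I := by
      intro p hp
      refine ⟨subset_trans ?_ hp, hp ((cl_mem_hEdge s t).2 rfl)⟩
      unfold hEdge
      exact subset_trans subset_union_left subset_union_left
    have hs1 := hsub p hp.2
    have hs2 := hsub p' hp'.2
    rcases lt_or_gt_of_ne hi with h | h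
    · apply hmem _ _ h (hq p' hp'.1)
      unfold fEdge
      apply union_subset hs1.1
      intro x hx
      rw [mem_insert, mem_singleton] at hx
      rcases hx with rfl | rfl
      · exact hs1.2
      · exact hs2.2
    · apply hmem _ _ h (hq p hp.1)
      unfold fEdge
      apply union_subset hs1.1
      intro x hx
      rw [mem_insert, mem_singleton] at hx
      rcases hx with rfl | rfl
      · exact hs2.2
      · exact hs1.2
  -- inject into β-subsets of the free vertices in I
  set B : Finset ℕ := (range N).filter (fun b => fr s t b ∈ I) with hB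
  have hinj : ((hIdx t β q N).filter (fun p => hEdge s t p.1 p.2 ⊆ I)).card ≤ (powersetCard β B).card := by
    refine card_le_card_of_injOn (fun p => p.2) ?_ ?_
    · intro p hp
      rw [mem_coe, mem_filter] at hp
      have h2 := hp.1
      simp only [hIdx, mem_product, mem_powersetCard] at h2
      simp only [mem_coe, mem_powersetCard]
      refine ⟨?_, h2.2.2⟩
      intro b hb
      rw [hB, mem_filter]
      exact ⟨h2.2.1 hb, hp.2 ((fr_mem_hEdge s t).2 hb)⟩
    · intro p hp p' hp' h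
      exact Prod.ext (huniq p hp p' hp') h
  refine le_trans hinj ?_
  rw [card_powersetCard]
  refine le_trans (Nat.choose_le_pow _ _) ?_
  apply Nat.pow_le_pow_left
  refine card_le_card_of_injOn (fun b => fr s t b) ?_ ?_
  · intro b hb
    rw [mem_coe, hB, mem_filter] at hb
    exact hb.2
  · intro a _ b _ h
    simpa [fr] using h

theorem card_VV (q N : ℕ) : (VV s t q N).card ≤ s + t * q + N := by
  unfold VV
  refine le_trans (card_union_le _ _) ?_
  refine add_le_add (le_trans (card_union_le _ _) (add_le_add (card_spec s t).le ?_)) ?_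
  · refine le_trans card_image_le ?_
    simp
  · refine le_trans card_image_le ?_
    simp

theorem card_H (q N : ℕ) : (PP s t β q N).H.card = q ^ t * N.choose β := by
  unfold PP hIdx
  simp

theorem card_F (q N : ℕ) : (PP s t β q N).F.card ≤ t * q ^ 2 := by
  unfold PP fIdx
  simp only [Multiset.card_map, card_val, card_product, card_univ, Fintype.card_fin]
  refine Nat.mul_le_mul_left _ (le_trans (card_filter_le _ _) ?_)
  simp [pow_two]

theorem restrict_self (P : HPair α) : P.restrict P.V = P := by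
  unfold HPair.restrict
  ext1
  · rfl
  · exact Multiset.filter_eq_self.2 P.hH
  · exact Multiset.filter_eq_self.2 P.hF

theorem PP_mem (q N : ℕ) : PP s t β q N ∈ Fam s t β :=
  ⟨q, N, VV s t q N, subset_refl _, (restrict_self (PP s t β q N)).symm⟩

theorem star (hs : 1 ≤ s) (ht : 3 ≤ t) : Star (Fam s t β) (s + t + β) (s + 2) (s + 2) (β : ℝ) := by
  refine ⟨by omega, by omega, le_refl _, ?_, ?_, ?_, ?_, ?_, ?_⟩
  · push_cast
    have h1 : (1 : ℝ) ≤ s := by exact_mod_cast hs
    have h2 : (3 : ℝ) ≤ t := by exact_mod_cast ht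
    linarith
  · push_cast
    have h2 : (3 : ℝ) ≤ t := by exact_mod_cast ht
    linarith
  · rintro P ⟨q, N, S, hS, rfl⟩
    constructor
    · intro e he
      have he' := (Multiset.mem_filter.1 he).1
      unfold PP at he'
      simp only [Multiset.mem_map] at he'
      obtain ⟨p, hp, rfl⟩ := he'
      simp only [hIdx, mem_val, mem_product, mem_powersetCard] at hp
      refine le_trans (card_hEdge s t _ _) ?_
      rw [hp.2.2]
    · intro e he
      have he' := (Multiset.mem_filter.1 he).1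
      unfold PP at he'
      simp only [Multiset.mem_map] at he'
      obtain ⟨p, hp, rfl⟩ := he'
      simp only [fIdx, mem_val, mem_product, mem_filter, mem_range, mem_univ, true_and] at hp
      rw [card_fEdge s t p.1 (ne_of_lt hp.2)]
      exact ⟨le_refl _, le_refl _⟩
  · rintro P ⟨q, N, S, hS, rfl⟩ S' hS'
    refine ⟨q, N, S', subset_trans hS' hS, ?_⟩
    unfold HPair.restrict
    ext1
    · rfl
    · exact filter_restrict hS'
    · exact filter_restrict hS'
  · refine ⟨1, ?_⟩
    rintro P ⟨q, N, S, hS, rfl⟩ hne I hI hind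
    have hI' : I ⊆ S := hI
    have h1 : eIn (PP s t β q N).F I = 0 := by
      unfold eIn at hind ⊢
      unfold HPair.restrict at hind
      simp only at hind
      rwa [filter_restrict hI'] at hind
    have h2 : eIn ((PP s t β q N).restrict S).H I = eIn (PP s t β q N).H I := by
      unfold eIn HPair.restrict
      simp only
      rw [filter_restrict hI']
    rw [h2, one_mul, Real.rpow_natCast]
    have h3 := indep_bound s t β h1
    have h4 : I.card ^ β ≤ S.card ^ β := Nat.pow_le_pow_left (card_le_card hI') _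
    have h5 : eIn (PP s t β q N).H I ≤ S.card ^ β := h3.trans h4
    have h6 : ((PP s t β q N).restrict S).V = S := rfl
    rw [h6]
    exact_mod_cast h5
  · rintro P ⟨q, N, S, hS, rfl⟩ e he g hg
    have he' := (Multiset.mem_filter.1 he).1
    have hg' := (Multiset.mem_filter.1 hg).1
    unfold PP at he' hg'
    simp only [Multiset.mem_map] at he' hg'
    obtain ⟨p, hp, rfl⟩ := he'
    obtain ⟨p', hp', rfl⟩ := hg'
    simp only [fIdx, mem_val, mem_product, mem_filter, mem_range, mem_univ, true_and] at hp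
    exact not_sub s t (ne_of_lt hp.2)

theorem not_supersat (ht : 3 ≤ t) (γ : ℝ) (hγ : 2 / (t : ℝ) < γ) :
    ¬ Supersat (Fam s t β) (β : ℝ) γ := by
  rintro ⟨k₀, c, hc, H⟩
  have htR : (0 : ℝ) < t := by exact_mod_cast (by omega : 0 < t)
  set c₀ : ℝ := 1 / (4 ^ β * (β.factorial : ℝ)) with hc₀
  have hc₀pos : 0 < c₀ := by positivity
  have hex : 0 < (t : ℝ) * γ - 2 := by
    rw [div_lt_iff₀ htR] at hγ
    linarith
  have h1 : Filter.Tendsto (fun q : ℕ => ((q : ℝ)) ^ ((t : ℝ) * γ - 2)) Filter.atTop Filter.atTop :=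
    (tendsto_rpow_atTop hex).comp tendsto_natCast_atTop_atTop
  have h2 : Filter.Tendsto (fun q : ℕ => c₀ * (q : ℝ) ^ t) Filter.atTop Filter.atTop :=
    ((Filter.tendsto_pow_atTop (by omega : t ≠ 0)).comp tendsto_natCast_atTop_atTop).const_mul_atTop hc₀pos
  obtain ⟨q, ⟨hq1, hq2⟩, hq3⟩ := ((h1.eventually_gt_atTop (t / (c * c₀ ^ γ))).and
    (h2.eventually_ge_atTop k₀)).and (Filter.eventually_ge_atTop 1) |>.exists
  have hqR : (0 : ℝ) < q := by exact_mod_cast (by omega : 0 < q)
  set N := s + t * q + 2 * β + 1 with hN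
  have h3 : (PP s t β q N).V.card ≤ 4 * (N + 1 - β) := by
    have : (PP s t β q N).V = VV s t q N := rfl
    rw [this]
    have := card_VV s t q N
    omega
  have h4 : c₀ * ((PP s t β q N).V.card : ℝ) ^ β ≤ (N.choose β : ℝ) := by
    have h5 : (((N + 1 - β : ℕ) : ℝ)) ^ β ≤ (β.factorial : ℝ) * (N.choose β : ℝ) := by
      have h6 := Nat.descFactorial_eq_factorial_mul_choose N β
      have h7 := Nat.pow_sub_le_descFactorial N β
      rw [h6] at h7
      exact_mod_cast h7
    have h8 : ((PP s t β q N).V.card : ℝ) ^ β ≤ (4 * ((N + 1 - β : ℕ) : ℝ)) ^ β := by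
      apply pow_le_pow_left₀ (Nat.cast_nonneg _)
      exact_mod_cast h3
    rw [mul_pow] at h8
    rw [hc₀, div_mul_eq_mul_div, one_mul, div_le_iff₀ (by positivity)]
    have h9 : (4 : ℝ) ^ β * ((N + 1 - β : ℕ) : ℝ) ^ β ≤ 4 ^ β * ((β.factorial : ℝ) * (N.choose β : ℝ)) :=
      mul_le_mul_of_nonneg_left h5 (by positivity)
    calc _ ≤ _ := h8
      _ ≤ _ := h9
      _ = _ := by ring
  have hne : (PP s t β q N).V.Nonempty :=
    ⟨fr s t 0, mem_union_right _ (mem_image_of_mem _ (mem_range.2 (by omega)))⟩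
  have h10 := H (PP s t β q N) (PP_mem s t β q N) hne (c₀ * (q : ℝ) ^ t) hq2 (by positivity) (by
    rw [card_H, Real.rpow_natCast]
    push_cast
    have : c₀ * (q : ℝ) ^ t * ((PP s t β q N).V.card : ℝ) ^ β = (q : ℝ) ^ t * (c₀ * ((PP s t β q N).V.card : ℝ) ^ β) := by
      ring
    rw [this]
    exact mul_le_mul_of_nonneg_left h4 (by positivity))
  have h11 : ((PP s t β q N).F.card : ℝ) ≤ t * (q : ℝ) ^ 2 := by exact_mod_cast card_F s t β q N
  have h12 : (c₀ * (q : ℝ) ^ t) ^ γ = c₀ ^ γ * ((q : ℝ) ^ ((t : ℝ) * γ - 2) * (q : ℝ) ^ 2) := by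
    rw [Real.mul_rpow hc₀pos.le (by positivity), ← Real.rpow_natCast (q : ℝ) t, ← Real.rpow_mul hqR.le,
      ← Real.rpow_natCast (q : ℝ) 2, ← Real.rpow_add hqR]
    congr 2
    push_cast
    ring
  rw [h12] at h10
  have h13 : 0 < c * c₀ ^ γ := by positivity
  have h14 : (t : ℝ) < c * c₀ ^ γ * (q : ℝ) ^ ((t : ℝ) * γ - 2) := by
    rw [div_lt_iff₀ h13] at hq1
    linarith
  have h15 : (t : ℝ) * (q : ℝ) ^ 2 < c * c₀ ^ γ * (q : ℝ) ^ ((t : ℝ) * γ - 2) * (q : ℝ) ^ 2 :=
    mul_lt_mul_of_pos_right h14 (by positivity)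
  have h16 : c * (c₀ ^ γ * ((q : ℝ) ^ ((t : ℝ) * γ - 2) * (q : ℝ) ^ 2)) =
      c * c₀ ^ γ * (q : ℝ) ^ ((t : ℝ) * γ - 2) * (q : ℝ) ^ 2 := by ring
  rw [h16] at h10
  linarith

end construction

/-- For all naturals `f ≥ 3`, `β` and `h > f + β` there is a hereditary family of `(h, f, f)`-bounded
pairs satisfying (*) for which supersaturation fails with every exponent above
`2 / (h - β - f + 2)`, in particular with the exponent `f / (h - β)` of the question. -/
theorem result : ∀ f h β : ℕ, 3 ≤ f → f + β < h →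
    ∃ (α : Type) (_ : DecidableEq α) (Fm : Set (HPair α)),
      Star Fm h f f (β : ℝ) ∧
      2 / ((h : ℝ) - β - f + 2) < f / ((h : ℝ) - β) ∧
      ∀ γ : ℝ, 2 / ((h : ℝ) - β - f + 2) < γ → ¬ Supersat Fm (β : ℝ) γ := by
  intro f h β hf hh
  obtain ⟨s, rfl⟩ : ∃ s, f = s + 2 := ⟨f - 2, by omega⟩
  obtain ⟨t, rfl⟩ : ∃ t, h = s + t + β := ⟨h - s - β, by omega⟩
  have hcast : (((s + t + β : ℕ) : ℝ) - β - ((s + 2 : ℕ) : ℝ) + 2) = t := by
    push_cast; ring
  refine ⟨Vx s t, inferInstance, Fam s t β, star s t β (by omega) (by omega), ?_, ?_⟩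
  · rw [hcast]
    have hs : (1 : ℝ) ≤ s := by exact_mod_cast (by omega : 1 ≤ s)
    have ht : (3 : ℝ) ≤ t := by exact_mod_cast (by omega : 3 ≤ t)
    have h1 : (((s + t + β : ℕ) : ℝ) - β) = s + t := by push_cast; ring
    rw [h1]
    push_cast
    rw [div_lt_div_iff₀ (by linarith) (by linarith)]
    nlinarith
  · intro γ hγ
    rw [hcast] at hγ
    exact not_supersat s t β (by omega) γ hγ

end Pool.Agent.Results.MP_362e7f_co.SupersaturationFails
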